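import Mathlib
import Pool.Agent.H24.Sqf.FixedK
import Pool.Agent.H24.Sqf.PartB

namespace Pool.Agent.Results.MP_21fe07_nt.SquarefreePascal

open Filter Topology

/-- The number `S(N)` of positions `(n, k)` with `0 ≤ k ≤ n ≤ N - 1` for which the binomial
coefficient `n.choose k` is squarefree. -/
noncomputable def S (N : ℕ) : ℕ :=
  Set.ncard {x : ℕ × ℕ | x.2 ≤ x.1 ∧ x.1 < N ∧ Squarefree (x.1.choose x.2)}

theorem S_eq (N : ℕ) : S N = Pool.Agent.H24.Sqf.S N := by
  classical
  unfold S Pool.Agent.H24.Sqf.S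
  have h1 : {x : ℕ × ℕ | x.2 ≤ x.1 ∧ x.1 < N ∧ Squarefree (x.1.choose x.2)}
      = ↑(((Finset.range N).sigma (fun n => (Finset.range (n + 1)).filter
          (fun k => Squarefree (n.choose k)))).map
          (Equiv.sigmaEquivProd ℕ ℕ).toEmbedding) := by
    ext x
    simp only [Set.mem_setOf_eq, Finset.coe_map, Set.mem_image, Finset.mem_coe, Finset.mem_sigma,
      Finset.mem_range, Finset.mem_filter]
    constructor
    · rintro ⟨h1, h2, h3⟩
      exact ⟨⟨x.1, x.2⟩, ⟨h2, by simp only; omega, h3⟩, rfl⟩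
    · rintro ⟨y, ⟨h1, h2, h3⟩, rfl⟩
      refine ⟨?_, h1, h3⟩
      simp only [Equiv.coe_toEmbedding, Equiv.sigmaEquivProd_apply]
      omega
  rw [h1, Set.ncard_coe_finset, Finset.card_map, Finset.card_sigma]
  apply Finset.sum_congr rfl
  intro n _
  rw [Finset.card_filter]
  rfl

/-- The number of squarefree entries in the first `N` rows of Pascal's triangle is asymptotic to
`γ * N` for a positive constant `γ`. -/
theorem result : ∃ γ : ℝ, 0 < γ ∧ Tendsto (fun N : ℕ => (S N : ℝ) / (N : ℝ)) atTop (𝓝 γ) := by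
  obtain ⟨γ, h1, h2⟩ := Pool.Agent.H24.Sqf.assembly Pool.Agent.H24.Sqf.partA
    Pool.Agent.H24.Sqf.partB Pool.Agent.H24.Sqf.fixedK
  refine ⟨γ, h1, ?_⟩
  simp only [S_eq]
  exact h2

end Pool.Agent.Results.MP_21fe07_nt.SquarefreePascal
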